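import Pool.Agent.Q225.GH.Stm

set_option autoImplicit false

/-!
# Project GH (helper225): the number of vertices (S_CARD)
-/

namespace Pool.Agent.Q211.GH

open Finset Pool.Agent.TH658.Dg Pool.Agent.Q210.SP Pool.Agent.Q225.GH

theorem cardI {m p : ℕ} (u : Nd m p) :
    Fintype.card ((MB m p).I u → ZMod 2) = 2 ^ Fintype.card ((MB m p).I u) := by
  rw [Fintype.card_fun, ZMod.card]

theorem t_CARD : S_CARD := by
  intro m p _
  rw [Nat.card_eq_fintype_card, Fintype.card_sigma]
  simp_rw [cardI]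
  rw [← (ndEquiv m p).symm.sum_comp]
  rw [Fintype.sum_sum_type, Fintype.sum_sum_type, Fintype.sum_sum_type, Fintype.sum_sum_type]
  have h1 : ∀ v : MQ m, Fintype.card ((MB m p).I ((ndEquiv m p).symm (Sum.inl v))) = 8 := by
    intro v; rfl
  have h2 : ∀ v : ME m × Bool,
      Fintype.card ((MB m p).I ((ndEquiv m p).symm (Sum.inr (Sum.inl v)))) = 1 := by
    intro v; rfl
  have h3 : ∀ v : MQ m × Fin 3,
      Fintype.card ((MB m p).I ((ndEquiv m p).symm (Sum.inr (Sum.inr (Sum.inl v))))) = 3 := by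
    intro v; rfl
  have h4 : ∀ v : MQ m × Fin 3,
      Fintype.card ((MB m p).I ((ndEquiv m p).symm (Sum.inr (Sum.inr (Sum.inr (Sum.inl v)))))) = 3 := by
    intro v; rfl
  have h5 : ∀ v : Fin p,
      Fintype.card ((MB m p).I ((ndEquiv m p).symm (Sum.inr (Sum.inr (Sum.inr (Sum.inr v)))))) = 0 := by
    intro v; rfl
  simp_rw [h1, h2, h3, h4, h5]
  simp only [Finset.sum_const, Finset.card_univ, Fintype.card_prod, ZMod.card, Fintype.card_fin,
    Fintype.card_bool, smul_eq_mul]
  ring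

end Pool.Agent.Q211.GH
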